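import Pool.Agent.H905Z.Cyc

set_option autoImplicit false

namespace Pool.Agent.Results.MP_84a9df_co.ARatioNotOne

open Pool.Agent.H905Z.Cyc Filter Topology

/-- For `ℓ = 6` the ratio `c_{ℓ,k} / d_{ℓ,k}` is at least `1.02` for infinitely many `k`; hence the
ratio does not tend to one for every even `ℓ ≥ 4`. -/
theorem result :
    (∃ᶠ k in atTop, 0 < dd 6 k ∧ ((51 / 50 : ℝ) : EReal) ≤ cc 6 k / (dd 6 k : EReal)) ∧
    ¬ ∀ ℓ : ℕ, Even ℓ → 4 ≤ ℓ → Tendsto (fun k => cc ℓ k / (dd ℓ k : EReal)) atTop (𝓝 1) :=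
  ⟨(frequently_ge.and_eventually (eventually_ge_atTop 2)).mono fun k h => ⟨dd_pos k h.2, h.1⟩,
    fun h => not_tendsto (h 6 (by decide) (by norm_num))⟩

end Pool.Agent.Results.MP_84a9df_co.ARatioNotOne
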